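import Pool.Agent.N789.Kl.Growth

/-!
# A computable strictly decreasing sequence of rationals converging to Klarner's constant

`Kl.t n` is the number of fixed `n`-ominoes (classes of connected `n`-sets of cells of the square
lattice modulo translations).  Klarner's constant `lam` is the limit of `(t n) ^ (1 / n)`.

We show that `β n = (M n + 1) / 2 ^ n` is a strictly decreasing sequence of rational numbers
converging to `lam`, where `M n` is the least `m` such that for some `1 ≤ k ≤ n + 1`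

  `256 * j ^ 2 * rooted j ≤ (m / 2 ^ n) ^ j` for all `k ≤ j ≤ 4 * k + 4`

with `rooted j` the number of `j`-ominoes containing the origin.  The function `M` is primitive
recursive, and the error is explicit.
-/

namespace Pool.Agent.Results.MP_fc5d3b_co.KlarnerComputable

open Filter Topology Pool.Agent.N789

/-- The number of `n`-ominoes (connected sets of `n` cells) which contain the cell `(0, 0)`. -/
noncomputable def rooted (n : ℕ) : ℕ := Nat.card {P : Kl.Omino n // ((0, 0) : ℤ × ℤ) ∈ P.1}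

/-- `m` is admissible at level `n` if, for some window `[k, 4k + 4]` with `1 ≤ k ≤ n + 1`, the
number `m / 2 ^ n` satisfies `256 * j ^ 2 * rooted j ≤ (m / 2 ^ n) ^ j` for all `j` in it. -/
def Admissible (n m : ℕ) : Prop :=
  ∃ k, 1 ≤ k ∧ k ≤ n + 1 ∧ ∀ j, k ≤ j → j ≤ 4 * k + 4 →
    256 * (j : ℝ) ^ 2 * rooted j ≤ ((m : ℝ) / 2 ^ n) ^ j

lemma rooted_eq (n : ℕ) : rooted n = Kl.a n := by
  have h : Nat.card {P : Kl.Omino n // ((0, 0) : ℤ × ℤ) ∈ P.1} = Nat.card (Kl.A0 n) := by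
    apply Nat.card_congr
    exact
      { toFun := fun P => ⟨P.1.1, Kl.mem_A0.2 ⟨P.1.2.1, P.1.2.2, P.2⟩⟩
        invFun := fun P => ⟨⟨P.1, (Kl.mem_A0.1 P.2).1, (Kl.mem_A0.1 P.2).2.1⟩,
          (Kl.mem_A0.1 P.2).2.2⟩
        left_inv := fun _ => rfl
        right_inv := fun _ => rfl }
  unfold rooted Kl.a
  rw [h]
  simp

lemma admissible_iff (n m : ℕ) : Admissible n m ↔ Kl.Test m n := by
  rw [Kl.test_iff]
  unfold Admissible Kl.Window
  simp only [rooted_eq]

lemma isLeast_M (n : ℕ) : IsLeast {m | Admissible n m} (Kl.M n) := by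
  constructor
  · exact (admissible_iff n _).2 (Kl.M_eq n).1
  · intro m hm
    exact Kl.M_le ((admissible_iff n m).1 hm)

/-- the error factor tends to `1` -/
lemma tendsto_err : Tendsto (fun n : ℕ => Kl.err (n + 1)) atTop (𝓝 1) := by
  have h1 : Tendsto (fun x : ℝ => x ^ (12 / (1 * x + (-4)))) atTop (𝓝 1) :=
    tendsto_rpow_div_mul_add 12 1 (-4) (by norm_num)
  have hx : Tendsto (fun n : ℕ => 4 * ((n : ℝ) + 1) + 4) atTop atTop := by
    apply tendsto_atTop_add_const_right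
    apply Tendsto.const_mul_atTop (by norm_num)
    exact tendsto_atTop_add_const_right _ _ tendsto_natCast_atTop_atTop
  have h2 := h1.comp hx
  have h3 : Tendsto (fun n : ℕ => (256 : ℝ) ^ ((1 : ℝ) / ((n : ℝ) + 1))) atTop (𝓝 1) := by
    have h4 : Tendsto (fun n : ℕ => (1 : ℝ) / ((n : ℝ) + 1)) atTop (𝓝 0) :=
      tendsto_one_div_add_atTop_nhds_zero_nat
    have h5 : Tendsto (fun x : ℝ => (256 : ℝ) ^ x) (𝓝 0) (𝓝 ((256 : ℝ) ^ (0 : ℝ))) :=
      (Real.continuous_const_rpow (by norm_num)).tendsto _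
    rw [Real.rpow_zero] at h5
    exact h5.comp h4
  have h6 := h3.mul h2
  rw [one_mul] at h6
  refine h6.congr ?_
  intro n
  simp only [Function.comp, Kl.err]
  have hn : (0 : ℝ) < (n : ℝ) + 1 := by positivity
  have hpos : (0 : ℝ) ≤ 4 * ((n : ℝ) + 1) + 4 := by positivity
  push_cast
  rw [Real.mul_rpow (by norm_num) (by positivity), ← Real.rpow_natCast (4 * ((n : ℝ) + 1) + 4) 3,
    ← Real.rpow_mul hpos]
  congr 2
  push_cast
  field_simp
  ring

/-- **Klarner's constant has a computable strictly decreasing sequence of rational upper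
approximations.**  There is a real number `lam` with `t(n) ^ (1/n) → lam`, and a primitive
recursive function `M : ℕ → ℕ` such that `M n` is the least admissible number at level `n` and the
rational numbers `β n = (M n + 1) / 2 ^ n` are strictly decreasing and converge to `lam`; moreover
`lam < β n ≤ lam * (256 (4 (n + 1) + 4) ^ 3) ^ (1 / (n + 1)) + 2 / 2 ^ n` for every `n`. -/
theorem result :
    ∃ lam : ℝ, Tendsto (fun n : ℕ => (Kl.t n : ℝ) ^ ((1 : ℝ) / n)) atTop (𝓝 lam) ∧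
      ∃ M : ℕ → ℕ, Primrec M ∧ Computable M ∧ (∀ n, IsLeast {m | Admissible n m} (M n)) ∧
        (StrictAnti fun n => ((M n : ℚ) + 1) / 2 ^ n) ∧
        Tendsto (fun n => (((((M n : ℚ) + 1) / 2 ^ n : ℚ)) : ℝ)) atTop (𝓝 lam) ∧
        ∀ n, lam < (((((M n : ℚ) + 1) / 2 ^ n : ℚ)) : ℝ) ∧
          (((((M n : ℚ) + 1) / 2 ^ n : ℚ)) : ℝ) ≤
            lam * (256 * (4 * ((n : ℝ) + 1) + 4) ^ 3) ^ ((1 : ℝ) / (n + 1)) + 2 / 2 ^ n := by
  have herr : ∀ n : ℕ, Kl.err (n + 1) =
      (256 * (4 * ((n : ℝ) + 1) + 4) ^ 3) ^ ((1 : ℝ) / (n + 1)) := by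
    intro n
    unfold Kl.err
    push_cast
    rfl
  have hcast : ∀ n, (((((Kl.M n : ℚ) + 1) / 2 ^ n : ℚ)) : ℝ) = ((Kl.M n : ℝ) + 1) / 2 ^ n := by
    intro n
    push_cast
    rfl
  have hlow : ∀ n, Kl.lam < (((((Kl.M n : ℚ) + 1) / 2 ^ n : ℚ)) : ℝ) := by
    intro n
    rw [hcast]
    have h1 := Kl.lam_le_M n
    have h2 : (0 : ℝ) < 1 / 2 ^ n := by positivity
    rw [add_div]
    linarith
  have hupp : ∀ n, (((((Kl.M n : ℚ) + 1) / 2 ^ n : ℚ)) : ℝ) ≤
      Kl.lam * Kl.err (n + 1) + 2 / 2 ^ n := by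
    intro n
    rw [hcast]
    have h1 := Kl.M_le_lam n
    rw [add_div]
    have h2 : (2 : ℝ) / 2 ^ n = 1 / 2 ^ n + 1 / 2 ^ n := by ring
    rw [h2]
    linarith
  refine ⟨Kl.lam, Kl.tendsto_lam, Kl.M, Kl.primrec_M, Kl.primrec_M.to_comp, isLeast_M, ?_, ?_, ?_⟩
  · apply strictAnti_nat_of_succ_lt
    intro n
    have h1 : Kl.M (n + 1) ≤ 2 * Kl.M n := Kl.M_le (Kl.test_double (Kl.M_eq n).1)
    have h2 : (Kl.M (n + 1) : ℚ) ≤ 2 * Kl.M n := by exact_mod_cast h1
    rw [div_lt_div_iff₀ (by positivity) (by positivity), pow_succ]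
    have h3 : (0 : ℚ) < 2 ^ n := by positivity
    nlinarith
  · have h1 : Tendsto (fun n : ℕ => Kl.lam * Kl.err (n + 1) + 2 / 2 ^ n) atTop (𝓝 Kl.lam) := by
      have h2 := tendsto_err.const_mul Kl.lam
      rw [mul_one] at h2
      have h3 : Tendsto (fun n : ℕ => (2 : ℝ) / 2 ^ n) atTop (𝓝 0) := by
        have h4 : Tendsto (fun n : ℕ => (2 : ℝ) * (1 / 2) ^ n) atTop (𝓝 (2 * 0)) :=
          (tendsto_pow_atTop_nhds_zero_of_lt_one (by norm_num) (by norm_num)).const_mul 2
        rw [mul_zero] at h4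
        refine h4.congr ?_
        intro n
        rw [one_div, inv_pow, div_eq_mul_inv]
      have h5 := h2.add h3
      rwa [add_zero] at h5
    exact tendsto_of_tendsto_of_tendsto_of_le_of_le tendsto_const_nhds h1
      (fun n => (hlow n).le) hupp
  · intro n
    refine ⟨hlow n, ?_⟩
    rw [← herr]
    exact hupp n

end Pool.Agent.Results.MP_fc5d3b_co.KlarnerComputable
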